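import Pool.Agent.helper85.FC.Defs
import Pool.Agent.helper44.MT.FI2

/-!
# Five coefficients (MP_bf63dc_nt), module F2: from standard position to admissible forms
-/

namespace Pool.Agent.helper85.FC

open Finset Real ArithmeticFunction Pool.Agent.helper39.MT

/-- F2, from the statement of F1. -/
theorem F2_of (hstd : ∃ kc D₀ : ℕ, 1 ≤ kc ∧ ∀ (A B : Fin (5 * kc) → ℕ) (W : ℕ),
    Std (5 * kc) D₀ A B W → ∀ N : ℕ, ∃ n ≥ N, ∃ i j, cl i ≠ cl j ∧
      (A i * n + B i).Prime ∧ (A j * n + B j).Prime) :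
    ∃ kc : ℕ, 1 ≤ kc ∧ ∀ (A : Fin (5 * kc) → ℕ) (B : Fin (5 * kc) → ℤ),
    (∀ i, 0 < A i) → (∀ i j, i ≠ j → (A i : ℤ) * B j ≠ A j * B i) →
    (∀ p : ℕ, p.Prime → ∃ n : ℕ, ∀ i, ¬ (p : ℤ) ∣ A i * n + B i) →
    ∀ N : ℕ, ∃ n ≥ N, ∃ i j, cl i ≠ cl j ∧
      ((A i : ℤ) * n + B i).toNat.Prime ∧ ((A j : ℤ) * n + B j).toNat.Prime := by
  obtain ⟨kc, D₀, hkc, hmain⟩ := hstd
  refine ⟨kc, hkc, fun A B hA hdet hadm N => ?_⟩
  -- the modulus
  set M : ℕ := D₀ + ∑ i, A i + ∑ i, ∑ j, ((A i : ℤ) * B j - A j * B i).natAbs with hM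
  have hMA : ∀ i, A i ≤ M := by
    intro i
    have := Finset.single_le_sum (f := A) (fun j _ => Nat.zero_le _) (Finset.mem_univ i)
    omega
  have hMdet : ∀ i j, ((A i : ℤ) * B j - A j * B i).natAbs ≤ M := by
    intro i j
    have h1 := Finset.single_le_sum
      (f := fun j => ((A i : ℤ) * B j - A j * B i).natAbs) (fun j _ => Nat.zero_le _)
      (Finset.mem_univ j)
    have h2 := Finset.single_le_sum
      (f := fun i => ∑ j, ((A i : ℤ) * B j - A j * B i).natAbs) (fun j _ => Nat.zero_le _)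
      (Finset.mem_univ i)
    have h3 := h1.trans h2
    omega
  set P : Finset ℕ := (Finset.range (M + 1)).filter Nat.Prime with hP
  have hPmem : ∀ p, p ∈ P ↔ p ≤ M ∧ p.Prime := by
    intro p
    simp only [hP, Finset.mem_filter, Finset.mem_range]
    constructor
    · rintro ⟨h1, h2⟩; exact ⟨by omega, h2⟩
    · rintro ⟨h1, h2⟩; exact ⟨by omega, h2⟩
  set W : ℕ := ∏ p ∈ P, p with hW
  have hWpos : 0 < W := Finset.prod_pos fun p hp => ((hPmem p).mp hp).2.pos
  have hdvdW : ∀ p : ℕ, p.Prime → (p ∣ W ↔ p ≤ M) := by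
    intro p hp
    constructor
    · intro h
      obtain ⟨q, hq, hpq⟩ := (Prime.dvd_finsetProd_iff hp.prime _).mp h
      have h1 := (Nat.prime_dvd_prime_iff_eq hp ((hPmem q).mp hq).2).mp hpq
      rw [h1]
      exact ((hPmem q).mp hq).1
    · intro h
      exact Finset.dvd_prod_of_mem _ ((hPmem p).mpr ⟨h, hp⟩)
  -- the residue class
  have hchoose : ∀ p : ℕ, ∃ n : ℤ, p.Prime → ∀ i, ¬ (p : ℤ) ∣ A i * n + B i := by
    intro p
    by_cases hp : p.Prime
    · obtain ⟨n, hn⟩ := hadm p hp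
      exact ⟨n, fun _ => hn⟩
    · exact ⟨0, fun h => absurd h hp⟩
  choose nn hnn using hchoose
  obtain ⟨v₁, hv₁⟩ := co1_crt_int P (fun p hp => ((hPmem p).mp hp).2) 1 nn
  -- make it large
  set v : ℕ := v₁ + W * (∑ i, (B i).natAbs + 1) with hv
  have hvpos : ∀ i, 0 < (A i : ℤ) * v + B i := by
    intro i
    have h1 : (B i).natAbs ≤ ∑ i, (B i).natAbs :=
      Finset.single_le_sum (f := fun i => (B i).natAbs) (fun j _ => Nat.zero_le _)
        (Finset.mem_univ i)
    have h2 : (B i).natAbs + 1 ≤ v := by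
      have h3 : ∑ i, (B i).natAbs + 1 ≤ W * (∑ i, (B i).natAbs + 1) :=
        Nat.le_mul_of_pos_left _ hWpos
      omega
    have h3 : v ≤ A i * v := Nat.le_mul_of_pos_left _ (hA i)
    have h4 : (B i).natAbs + 1 ≤ A i * v := h2.trans h3
    have h5 : (((B i).natAbs : ℕ) : ℤ) + 1 ≤ (A i : ℤ) * v := by exact_mod_cast h4
    have h6 : -(((B i).natAbs : ℕ) : ℤ) ≤ B i := by
      rw [Int.natCast_natAbs]
      exact neg_abs_le _
    linarith
  have hvcop : ∀ p ∈ P, ∀ i, ¬ (p : ℤ) ∣ A i * v + B i := by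
    intro p hp i hdiv
    have hpp := ((hPmem p).mp hp)
    refine hnn p hpp.2 i ?_
    have h1 := hv₁ p hp
    rw [pow_one] at h1
    have h2 : (p : ℤ) ∣ (W : ℤ) := by exact_mod_cast (hdvdW p hpp.2).mpr hpp.1
    have h3 : (A i : ℤ) * nn p + B i
        = (A i * v + B i) - A i * (((v₁ : ℤ) - nn p) + W * (∑ i, (B i).natAbs + 1)) := by
      rw [hv]
      push_cast
      ring
    rw [h3]
    exact dvd_sub hdiv ((dvd_add h1 (h2.mul_right _)).mul_left _)
  -- the new forms
  have hB' : ∀ i, (((A i : ℤ) * v + B i).toNat : ℤ) = A i * v + B i :=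
    fun i => Int.toNat_of_nonneg (hvpos i).le
  have hS : Std (5 * kc) D₀ (fun i => A i * W) (fun i => ((A i : ℤ) * v + B i).toNat) W := by
    refine ⟨fun i => Nat.mul_pos (hA i) hWpos, fun i => ?_, hWpos, ?_, ?_, ?_, ?_⟩
    · have h1 := hvpos i
      have h2 := hB' i
      omega
    · intro p hp hpD
      exact (hdvdW p hp).mpr (by omega)
    · intro i p hp
      constructor
      · intro h
        rcases (Nat.Prime.dvd_mul hp).mp h with h1 | h1
        · exact (hdvdW p hp).mpr ((Nat.le_of_dvd (hA i) h1).trans (hMA i))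
        · exact h1
      · intro h
        exact h.mul_left _
    · intro i
      refine Nat.Coprime.symm (Nat.Coprime.prod_left fun p hp => ?_)
      have hpp := ((hPmem p).mp hp).2
      rw [hpp.coprime_iff_not_dvd]
      intro h
      refine hvcop p hp i ?_
      rw [← hB' i]
      exact_mod_cast h
    · intro i j hij p hp hd
      have h1 : (((A i * W : ℕ) : ℤ)) * (((A j : ℤ) * v + B j).toNat : ℤ)
          - (((A j * W : ℕ) : ℤ)) * (((A i : ℤ) * v + B i).toNat : ℤ)
          = W * ((A i : ℤ) * B j - A j * B i) := by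
        rw [hB' i, hB' j]
        push_cast
        ring
      rw [h1] at hd
      have hpZ : Prime (p : ℤ) := Nat.prime_iff_prime_int.mp hp
      rcases hpZ.dvd_or_dvd hd with h2 | h2
      · exact_mod_cast h2
      · have h3 : (A i : ℤ) * B j - A j * B i ≠ 0 := sub_ne_zero.mpr (hdet i j hij)
        have h4 : p ∣ ((A i : ℤ) * B j - A j * B i).natAbs := Int.natCast_dvd.mp h2
        have h5 := Nat.le_of_dvd (Int.natAbs_pos.mpr h3) h4
        exact (hdvdW p hp).mpr (h5.trans (hMdet i j))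
  obtain ⟨n, hn, i, j, hij, hpi, hpj⟩ := hmain _ _ W hS N
  have hform : ∀ i, ((A i : ℤ) * ((W * n + v : ℕ) : ℤ) + B i).toNat
      = A i * W * n + ((A i : ℤ) * v + B i).toNat := by
    intro i
    have h2 : (A i : ℤ) * ((W * n + v : ℕ) : ℤ) + B i
        = ((A i * W * n + ((A i : ℤ) * v + B i).toNat : ℕ) : ℤ) := by
      push_cast
      rw [hB' i]
      ring
    rw [h2, Int.toNat_natCast]
  refine ⟨W * n + v, ?_, i, j, hij, ?_, ?_⟩
  · have : n ≤ W * n := Nat.le_mul_of_pos_left _ hWpos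
    omega
  · rw [hform i]; exact hpi
  · rw [hform j]; exact hpj

end Pool.Agent.helper85.FC
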