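import Mathlib

/-!
# Five coefficients (MP_bf63dc_nt), module F3: the shifts
-/

namespace Pool.Agent.helper85.FC

open Finset Real ArithmeticFunction

theorem F3_large (K : ℕ) : ∃ n₀ : ℕ, ∀ n : ℕ, n₀ ≤ n →
    (n : ℝ) / 4 + K * Real.log n + Real.log 4 * K < Chebyshev.theta n := by
  have h1 : ∀ᶠ x : ℝ in Filter.atTop, Real.log x ≤ 1 / 100 * x ^ (1 / 2 : ℝ) := by
    have h := (isLittleO_log_rpow_atTop (show (0 : ℝ) < 1 / 2 by norm_num)).bound
      (show (0 : ℝ) < 1 / 100 by norm_num)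
    filter_upwards [h, Filter.eventually_ge_atTop (1 : ℝ)] with x hx hx1
    rw [Real.norm_of_nonneg (Real.log_nonneg hx1), Real.norm_of_nonneg (by positivity)] at hx
    exact hx
  have h2 : ∀ᶠ n : ℕ in Filter.atTop, Real.log (n : ℝ) ≤ 1 / 100 * (n : ℝ) ^ (1 / 2 : ℝ) :=
    tendsto_natCast_atTop_atTop.eventually h1
  obtain ⟨n₁, hn₁⟩ := Filter.eventually_atTop.1 h2
  refine ⟨max n₁ (100 * K ^ 2 + 1000), fun n hn => ?_⟩
  have hn1 : n₁ ≤ n := le_trans (le_max_left _ _) hn
  have hn2 : 100 * K ^ 2 + 1000 ≤ n := le_trans (le_max_right _ _) hn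
  have hlog := hn₁ n hn1
  rw [← Real.sqrt_eq_rpow] at hlog
  have hn2' : (100 : ℝ) * K ^ 2 + 1000 ≤ n := by exact_mod_cast hn2
  have hn0 : (0 : ℝ) ≤ n := Nat.cast_nonneg n
  have hs := Real.sq_sqrt hn0
  have hs0 : 0 ≤ √(n : ℝ) := Real.sqrt_nonneg _
  have hsK : 10 * (K : ℝ) ≤ √(n : ℝ) := by
    apply Real.le_sqrt_of_sq_le
    nlinarith [sq_nonneg (K : ℝ)]
  have hs30 : 30 ≤ √(n : ℝ) := by
    apply Real.le_sqrt_of_sq_le
    nlinarith [sq_nonneg (K : ℝ)]
  have hth := Chebyshev.theta_ge n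
  have hl2 : 0.6931471803 < Real.log 2 := Real.log_two_gt_d9
  have hl2' : Real.log 2 < 0.6931471808 := Real.log_two_lt_d9
  have hl4 : Real.log 4 < 1.4 := by
    have : Real.log 4 = 2 * Real.log 2 := by
      rw [show (4 : ℝ) = 2 ^ 2 by norm_num, Real.log_pow]; push_cast; ring
    rw [this]; linarith
  have hn11 : (1 : ℝ) ≤ n := by nlinarith [sq_nonneg (K : ℝ)]
  have hln1 : Real.log ((n : ℝ) + 1) ≤ Real.log 2 + Real.log n := by
    rw [← Real.log_mul (by norm_num) (by linarith)]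
    apply Real.log_le_log (by positivity)
    linarith
  have hK0 : (0 : ℝ) ≤ K := Nat.cast_nonneg K
  have hlog0 : 0 ≤ Real.log n := Real.log_nonneg (by linarith)
  set s := √(n : ℝ) with hsdef
  have e1 : 2 * s * Real.log n ≤ 1 / 50 * n := by nlinarith
  have e2 : (K : ℝ) * Real.log n ≤ 1 / 1000 * n := by nlinarith
  have e3 : Real.log 4 * K ≤ 1.4 * (s / 10) := by nlinarith
  have e4 : s ≤ n / 30 := by nlinarith
  have e5 : (n : ℝ) * Real.log 2 ≥ n * 0.69 := by nlinarith
  nlinarith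

theorem F3_sum_primeFactors (m : ℕ) (hm : 0 < m) :
    ∑ p ∈ m.primeFactors, Real.log p ≤ Real.log m := by
  rw [← Real.log_prod (fun p hp => by
    have := (Nat.prime_of_mem_primeFactors hp).pos
    positivity)]
  apply Real.log_le_log
  · apply Finset.prod_pos
    intro p hp
    have := (Nat.prime_of_mem_primeFactors hp).pos
    positivity
  · have h := Nat.le_of_dvd hm (Nat.prod_primeFactors_dvd m)
    calc ∏ p ∈ m.primeFactors, (p : ℝ) = ((∏ p ∈ m.primeFactors, p : ℕ) : ℝ) := by push_cast; rfl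
      _ ≤ m := by exact_mod_cast h

theorem F3_biUnion {ι : Type*} [DecidableEq ι] (s : Finset ι) (t : ι → Finset ℕ) (f : ℕ → ℝ)
    (hf : ∀ p, 0 ≤ f p) : ∑ p ∈ s.biUnion t, f p ≤ ∑ j ∈ s, ∑ p ∈ t j, f p := by
  induction s using Finset.induction_on with
  | empty => simp
  | insert j s hj ih =>
    rw [Finset.biUnion_insert, Finset.sum_insert hj]
    have h2 := Finset.sum_union_inter (s₁ := t j) (s₂ := s.biUnion t) (f := f)
    have h3 : 0 ≤ ∑ p ∈ t j ∩ s.biUnion t, f p := Finset.sum_nonneg fun p _ => hf p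
    linarith

/-- F3: the shifts. For given `a₁, ..., a₅` there are `5 kc` distinct primes larger than `5 kc`, not
dividing the product of the `a_j`, and at most `C log A`. -/
theorem shifts (kc : ℕ) : ∃ C : ℝ, 0 < C ∧ ∀ (A : ℕ) (a : Fin 5 → ℕ), 2 ≤ A → (∀ j, 0 < a j) →
    (∀ j, a j ≤ A) → ∃ h : Fin (5 * kc) → ℕ, Function.Injective h ∧ (∀ i, (h i).Prime) ∧
      (∀ i, 5 * kc < h i) ∧ (∀ i j, ¬ h i ∣ a j) ∧ ∀ i, (h i : ℝ) ≤ C * Real.log A := by
  obtain ⟨n₀, hn₀⟩ := F3_large (5 * kc)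
  refine ⟨2 * (n₀ + 1) + 30, by positivity, fun A a hA ha haA => ?_⟩
  set K := 5 * kc with hK
  set C : ℝ := 2 * (n₀ + 1) + 30 with hC
  set n : ℕ := ⌊C * Real.log A⌋₊ with hn
  have hl2 : 0.6931471803 < Real.log 2 := Real.log_two_gt_d9
  have hlA : Real.log 2 ≤ Real.log A := Real.log_le_log (by norm_num) (by exact_mod_cast hA)
  have hn₀0 : (0 : ℝ) ≤ n₀ := Nat.cast_nonneg n₀
  have hClA : (n₀ : ℝ) + 1 + 20 * Real.log A + 1 ≤ C * Real.log A := by
    rw [hC]; nlinarith
  have hC0 : 0 ≤ C * Real.log A := by linarith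
  have hnle : (n : ℝ) ≤ C * Real.log A := Nat.floor_le hC0
  have hnlt : C * Real.log A < n + 1 := Nat.lt_floor_add_one _
  have hnn₀ : n₀ ≤ n := by
    have : (n₀ : ℝ) ≤ n := by linarith
    exact_mod_cast this
  have hth := hn₀ n hnn₀
  set S : Finset ℕ := (Nat.primesLE n).filter (fun p => K < p ∧ ∀ j, ¬ p ∣ a j) with hS
  have hcard : K ≤ #S := by
    by_contra hlt
    push Not at hlt
    have hsplit : Nat.primesLE n ⊆ Nat.primesLE K ∪ (Finset.univ.biUnion fun j => (a j).primeFactors) ∪ S := by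
      intro p hp
      rw [Nat.mem_primesLE] at hp
      rw [Finset.mem_union, Finset.mem_union]
      by_cases h1 : p ≤ K
      · left; left; rw [Nat.mem_primesLE]; exact ⟨h1, hp.2⟩
      · by_cases h2 : ∃ j, p ∣ a j
        · obtain ⟨j, hj⟩ := h2
          left; right
          rw [Finset.mem_biUnion]
          exact ⟨j, Finset.mem_univ _, Nat.mem_primeFactors.2 ⟨hp.2, hj, (ha j).ne'⟩⟩
        · right
          push Not at h2
          rw [hS, Finset.mem_filter, Nat.mem_primesLE]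
          exact ⟨hp, by omega, h2⟩
    have hnonneg : ∀ p : ℕ, 0 ≤ Real.log (p : ℝ) := fun p => Real.log_natCast_nonneg p
    have h1 : Chebyshev.theta n ≤ ∑ p ∈ Nat.primesLE K, Real.log p +
        ∑ j, ∑ p ∈ (a j).primeFactors, Real.log p + ∑ p ∈ S, Real.log p := by
      rw [Chebyshev.theta_eq_sum_primesLE_log]
      calc ∑ p ∈ Nat.primesLE n, Real.log (p : ℝ)
          ≤ ∑ p ∈ Nat.primesLE K ∪ (Finset.univ.biUnion fun j => (a j).primeFactors) ∪ S,
              Real.log (p : ℝ) :=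
            Finset.sum_le_sum_of_subset_of_nonneg hsplit fun p _ _ => hnonneg p
        _ ≤ ∑ p ∈ Nat.primesLE K ∪ (Finset.univ.biUnion fun j => (a j).primeFactors),
              Real.log (p : ℝ) + ∑ p ∈ S, Real.log (p : ℝ) := by
            have h2 := Finset.sum_union_inter (s₁ := Nat.primesLE K ∪
              (Finset.univ.biUnion fun j => (a j).primeFactors)) (s₂ := S)
              (f := fun p : ℕ => Real.log (p : ℝ))
            have h3 : 0 ≤ ∑ p ∈ (Nat.primesLE K ∪
              (Finset.univ.biUnion fun j => (a j).primeFactors)) ∩ S, Real.log (p : ℝ) :=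
              Finset.sum_nonneg fun p _ => hnonneg p
            linarith
        _ ≤ (∑ p ∈ Nat.primesLE K, Real.log (p : ℝ) +
              ∑ p ∈ Finset.univ.biUnion (fun j => (a j).primeFactors), Real.log (p : ℝ)) +
              ∑ p ∈ S, Real.log (p : ℝ) := by
            have h2 := Finset.sum_union_inter (s₁ := Nat.primesLE K)
              (s₂ := Finset.univ.biUnion fun j => (a j).primeFactors)
              (f := fun p : ℕ => Real.log (p : ℝ))
            have h3 : 0 ≤ ∑ p ∈ Nat.primesLE K ∩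
              (Finset.univ.biUnion fun j => (a j).primeFactors), Real.log (p : ℝ) :=
              Finset.sum_nonneg fun p _ => hnonneg p
            linarith
        _ ≤ _ := by
            gcongr
            exact F3_biUnion _ _ _ hnonneg
    have h2 : ∑ p ∈ Nat.primesLE K, Real.log (p : ℝ) ≤ Real.log 4 * K := by
      rw [← Chebyshev.theta_eq_sum_primesLE_log]
      exact Chebyshev.theta_le_log4_mul_x (Nat.cast_nonneg K)
    have h3 : ∑ j, ∑ p ∈ (a j).primeFactors, Real.log (p : ℝ) ≤ 5 * Real.log A := by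
      calc ∑ j, ∑ p ∈ (a j).primeFactors, Real.log (p : ℝ) ≤ ∑ _j : Fin 5, Real.log A := by
            refine Finset.sum_le_sum fun j _ => (F3_sum_primeFactors _ (ha j)).trans ?_
            exact Real.log_le_log (by exact_mod_cast ha j) (by exact_mod_cast haA j)
        _ = 5 * Real.log A := by simp
    have h4 : ∑ p ∈ S, Real.log (p : ℝ) ≤ K * Real.log n := by
      calc ∑ p ∈ S, Real.log (p : ℝ) ≤ ∑ _p ∈ S, Real.log (n : ℝ) := by
            refine Finset.sum_le_sum fun p hp => ?_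
            rw [hS, Finset.mem_filter, Nat.mem_primesLE] at hp
            exact Real.log_le_log (by exact_mod_cast hp.1.2.pos) (by exact_mod_cast hp.1.1)
        _ = #S * Real.log n := by simp
        _ ≤ K * Real.log n := by
            gcongr
    linarith
  -- choose
  have hcard2 : Fintype.card (Fin K) ≤ Fintype.card S := by
    rw [Fintype.card_fin, Fintype.card_coe]; exact hcard
  obtain ⟨e⟩ := Function.Embedding.nonempty_of_card_le hcard2
  have hmem : ∀ i, (e i : ℕ) ≤ n ∧ (e i : ℕ).Prime ∧ K < (e i : ℕ) ∧ ∀ j, ¬ (e i : ℕ) ∣ a j := by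
    intro i
    have h1 : (e i : ℕ) ∈ (Nat.primesLE n).filter (fun p => K < p ∧ ∀ j, ¬ p ∣ a j) := (e i).2
    rw [Finset.mem_filter, Nat.mem_primesLE] at h1
    exact ⟨h1.1.1, h1.1.2, h1.2.1, h1.2.2⟩
  refine ⟨fun i => (e i : ℕ), ?_, fun i => (hmem i).2.1, fun i => (hmem i).2.2.1,
    fun i j => (hmem i).2.2.2 j, fun i => ?_⟩
  · intro i i' h
    exact e.injective (Subtype.ext h)
  · have : ((e i : ℕ) : ℝ) ≤ n := by exact_mod_cast (hmem i).1
    linarith

end Pool.Agent.helper85.FC
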