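import Pool.Agent.helper85.FC.Defs
import Pool.Agent.helper71.FC.F2
import Pool.Agent.helper71.FC.F3

/-!
# Five coefficients (MP_bf63dc_nt), module F4: the end
-/

namespace Pool.Agent.helper85.FC

open Finset Real ArithmeticFunction Pool.Agent.helper39.MT

/-- a residue class avoiding the zeros of few linear forms -/
theorem F4_class {κ : Type*} [Fintype κ] (p : ℕ) (hp : p.Prime) (hk : Fintype.card κ < p)
    (A : κ → ℕ) (h : κ → ℤ) (hA : ∀ i, ¬ p ∣ A i) :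
    ∃ n : ℕ, ∀ i, ¬ (p : ℤ) ∣ A i * n + h i := by
  classical
  have : Fact p.Prime := ⟨hp⟩
  have hcard : #(Finset.univ.image fun i : κ => -(h i : ZMod p) * (A i : ZMod p)⁻¹)
      < #(Finset.univ : Finset (ZMod p)) := by
    refine lt_of_le_of_lt Finset.card_image_le ?_
    rw [Finset.card_univ, Finset.card_univ, ZMod.card]
    exact hk
  obtain ⟨r, -, hr⟩ := Finset.exists_mem_notMem_of_card_lt_card hcard
  refine ⟨r.val, fun i hdiv => hr ?_⟩
  rw [Finset.mem_image]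
  refine ⟨i, Finset.mem_univ _, ?_⟩
  have h1 : ((A i * (r.val : ℤ) + h i : ℤ) : ZMod p) = 0 :=
    (ZMod.intCast_zmod_eq_zero_iff_dvd _ p).2 hdiv
  push_cast at h1
  rw [ZMod.natCast_zmod_val] at h1
  have hA0 : (A i : ZMod p) ≠ 0 := by
    intro h0
    exact hA i ((ZMod.natCast_eq_zero_iff _ _).1 h0)
  rw [← div_eq_mul_inv, div_eq_iff hA0]
  linear_combination -h1

theorem F4_pigeon {κ : Type*} [Finite κ] (S : κ → Set ℕ) (h : ∀ N : ℕ, ∃ n ≥ N, ∃ i, n ∈ S i) :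
    ∃ i, (S i).Infinite := by
  by_contra hc
  push Not at hc
  have h1 : (⋃ i, S i).Finite := Set.finite_iUnion fun i => hc i
  obtain ⟨N, hN⟩ := h1.bddAbove
  obtain ⟨n, hn, i, hi⟩ := h (N + 1)
  have := hN (Set.mem_iUnion.2 ⟨i, hi⟩)
  omega

/-- F4, from the statement of F2. -/
theorem F4_of (hmain : ∃ kc : ℕ, 1 ≤ kc ∧ ∀ (A : Fin (5 * kc) → ℕ) (B : Fin (5 * kc) → ℤ),
    (∀ i, 0 < A i) → (∀ i j, i ≠ j → (A i : ℤ) * B j ≠ A j * B i) →
    (∀ p : ℕ, p.Prime → ∃ n : ℕ, ∀ i, ¬ (p : ℤ) ∣ A i * n + B i) →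
    ∀ N : ℕ, ∃ n ≥ N, ∃ i j, cl i ≠ cl j ∧
      ((A i : ℤ) * n + B i).toNat.Prime ∧ ((A j : ℤ) * n + B j).toNat.Prime) :
    ∃ C : ℝ, 0 < C ∧ ∀ (A : ℕ) (a : Fin 5 → ℕ), 2 ≤ A →
    Function.Injective a → (∀ j, 0 < a j) → (∀ j, a j ≤ A) →
    ∃ i j : Fin 5, i ≠ j ∧ ∃ c : ℤ, c ≠ 0 ∧ |(c : ℝ)| ≤ C * A * Real.log A ∧
      {pq : ℕ × ℕ | pq.1.Prime ∧ pq.2.Prime ∧ (a i : ℤ) * pq.1 - a j * pq.2 = c}.Infinite := by
  obtain ⟨kc, hkc, hmain⟩ := hmain
  obtain ⟨C, hC, hsh⟩ := shifts kc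
  refine ⟨C, hC, fun A a hA hinj ha haA => ?_⟩
  obtain ⟨h, hhinj, hhp, hhk, hhd, hhC⟩ := hsh A a hA ha haA
  set P : ℕ := ∏ j, a j with hP
  have hPpos : 0 < P := Finset.prod_pos fun j _ => ha j
  have hdvdP : ∀ j, a j ∣ P := fun j => Finset.dvd_prod_of_mem _ (Finset.mem_univ j)
  have hpP : ∀ i, ¬ h i ∣ P := by
    intro i hd
    obtain ⟨j, -, hj⟩ := (Prime.dvd_finsetProd_iff (hhp i).prime _).mp hd
    exact hhd i j hj
  have hmul : ∀ i : Fin (5 * kc), a (cl i) * (P / a (cl i)) = P := fun i =>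
    Nat.mul_div_cancel' (hdvdP _)
  have hFpos : ∀ i : Fin (5 * kc), 0 < P / a (cl i) := fun i =>
    Nat.div_pos (Nat.le_of_dvd hPpos (hdvdP _)) (ha _)
  have hne : ∀ i j : Fin (5 * kc), i ≠ j → a (cl j) * h j ≠ a (cl i) * h i := by
    intro i j hij heq
    have h1 : h i ∣ a (cl j) * h j := ⟨a (cl i), by rw [heq]; ring⟩
    rcases (hhp i).dvd_mul.1 h1 with h2 | h2
    · exact hhd i _ h2
    · exact hij (hhinj ((Nat.prime_dvd_prime_iff_eq (hhp i) (hhp j)).1 h2))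
  have hdet : ∀ i j : Fin (5 * kc), i ≠ j →
      ((P / a (cl i) : ℕ) : ℤ) * ((h j : ℕ) : ℤ) ≠ ((P / a (cl j) : ℕ) : ℤ) * ((h i : ℕ) : ℤ) := by
    intro i j hij heq
    have h1 : (P / a (cl i)) * h j = (P / a (cl j)) * h i := by exact_mod_cast heq
    apply hne i j hij
    have h2 : P * (a (cl j) * h j) = P * (a (cl i) * h i) := by
      calc P * (a (cl j) * h j) = (a (cl i) * (P / a (cl i))) * (a (cl j) * h j) := by rw [hmul]
        _ = a (cl i) * a (cl j) * ((P / a (cl i)) * h j) := by ring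
        _ = a (cl i) * a (cl j) * ((P / a (cl j)) * h i) := by rw [h1]
        _ = (a (cl j) * (P / a (cl j))) * (a (cl i) * h i) := by ring
        _ = P * (a (cl i) * h i) := by rw [hmul]
    exact Nat.eq_of_mul_eq_mul_left hPpos h2
  have hadm : ∀ p : ℕ, p.Prime → ∃ n : ℕ, ∀ i : Fin (5 * kc),
      ¬ (p : ℤ) ∣ ((P / a (cl i) : ℕ) : ℤ) * n + ((h i : ℕ) : ℤ) := by
    intro p hp
    by_cases hex : ∃ i, h i = p
    · obtain ⟨i₀, hi₀⟩ := hex
      refine F4_class p hp ?_ (fun i => P / a (cl i)) (fun i => ((h i : ℕ) : ℤ)) ?_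
      · rw [Fintype.card_fin, ← hi₀]; exact hhk i₀
      · intro i hd
        rw [← hi₀] at hd
        exact hpP i₀ (hd.trans (Nat.div_dvd_of_dvd (hdvdP _)))
    · push Not at hex
      refine ⟨0, fun i hd => hex i ?_⟩
      have h1 : p ∣ h i := by
        have : (p : ℤ) ∣ ((h i : ℕ) : ℤ) := by simpa using hd
        exact_mod_cast this
      exact ((Nat.prime_dvd_prime_iff_eq hp (hhp i)).1 h1).symm
  have hall := hmain (fun i => P / a (cl i)) (fun i => ((h i : ℕ) : ℤ)) hFpos hdet hadm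
  obtain ⟨⟨i, j⟩, hinf⟩ := F4_pigeon (κ := Fin (5 * kc) × Fin (5 * kc))
    (fun q => {n : ℕ | cl q.1 ≠ cl q.2 ∧ ((P / a (cl q.1)) * n + h q.1).Prime ∧
      ((P / a (cl q.2)) * n + h q.2).Prime}) (by
      intro N
      obtain ⟨n, hn, i, j, hij, hi, hj⟩ := hall N
      refine ⟨n, hn, (i, j), hij, ?_, ?_⟩
      · have e1 : (((P / a (cl i) : ℕ) : ℤ) * (n : ℤ) + ((h i : ℕ) : ℤ)).toNat
            = (P / a (cl i)) * n + h i := by
          rw [show ((P / a (cl i) : ℕ) : ℤ) * (n : ℤ) + ((h i : ℕ) : ℤ) =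
            (((P / a (cl i)) * n + h i : ℕ) : ℤ) by push_cast; ring, Int.toNat_natCast]
        rw [← e1]; exact hi
      · have e1 : (((P / a (cl j) : ℕ) : ℤ) * (n : ℤ) + ((h j : ℕ) : ℤ)).toNat
            = (P / a (cl j)) * n + h j := by
          rw [show ((P / a (cl j) : ℕ) : ℤ) * (n : ℤ) + ((h j : ℕ) : ℤ) =
            (((P / a (cl j)) * n + h j : ℕ) : ℤ) by push_cast; ring, Int.toNat_natCast]
        rw [← e1]; exact hj)
  have hcl : cl i ≠ cl j := by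
    obtain ⟨n, hn⟩ := hinf.nonempty
    exact hn.1
  have hij : i ≠ j := fun h0 => hcl (by rw [h0])
  refine ⟨cl i, cl j, hcl, (a (cl i) * h i : ℕ) - (a (cl j) * h j : ℕ), ?_, ?_, ?_⟩
  · intro h0
    apply hne i j hij
    have h1 : ((a (cl i) * h i : ℕ) : ℤ) = ((a (cl j) * h j : ℕ) : ℤ) := sub_eq_zero.1 h0
    exact_mod_cast h1.symm
  · have hb : ∀ i : Fin (5 * kc), ((a (cl i) * h i : ℕ) : ℝ) ≤ C * A * Real.log A := by
      intro i
      push_cast
      have h1 : (a (cl i) : ℝ) ≤ A := by exact_mod_cast haA (cl i)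
      have h2 := hhC i
      have h3 : (0 : ℝ) ≤ h i := Nat.cast_nonneg _
      have h4 : (0 : ℝ) ≤ A := Nat.cast_nonneg _
      calc (a (cl i) : ℝ) * h i ≤ A * (C * Real.log A) := mul_le_mul h1 h2 h3 h4
        _ = C * A * Real.log A := by ring
    have h0 : ∀ i : Fin (5 * kc), (0 : ℝ) ≤ ((a (cl i) * h i : ℕ) : ℝ) := fun i => Nat.cast_nonneg _
    rw [abs_le]
    push_cast at hb h0 ⊢
    constructor
    · linarith [hb j, h0 i]
    · linarith [hb i, h0 j]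
  · have hF := hFpos i
    have himg := hinf.image (f := fun n => ((P / a (cl i)) * n + h i, (P / a (cl j)) * n + h j))
      (by
        intro n _ n' _ heq
        have h1 := (Prod.ext_iff.1 heq).1
        simp only at h1
        exact Nat.eq_of_mul_eq_mul_left hF (Nat.add_right_cancel h1))
    refine himg.mono ?_
    rintro _ ⟨n, hn, rfl⟩
    refine ⟨hn.2.1, hn.2.2, ?_⟩
    have h1 : (a (cl i) : ℤ) * ((P / a (cl i) : ℕ) : ℤ) = P := by exact_mod_cast hmul i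
    have h2 : (a (cl j) : ℤ) * ((P / a (cl j) : ℕ) : ℤ) = P := by exact_mod_cast hmul j
    simp only
    push_cast at h1 h2 ⊢
    linear_combination (n : ℤ) * h1 - (n : ℤ) * h2

end Pool.Agent.helper85.FC
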